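import Mathlib

/-! Definitions for the Ahlfors-Beurling operator on weighted spaces. -/

set_option autoImplicit false

namespace Pool.Agent.H616Z.Beurling

open MeasureTheory Filter Topology Set
open scoped ENNReal

/-- The closed square with vertex `c` and side vector `u` (any position, size and orientation). -/
def square (c u : ℂ) : Set ℂ :=
  (fun ζ : ℂ => c + u * ζ) '' {ζ : ℂ | ζ.re ∈ Icc (0 : ℝ) 1 ∧ ζ.im ∈ Icc (0 : ℝ) 1}

/-- The mean value of a nonnegative function `h` over `Q` for area measure, in `[0, ∞]`. -/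
noncomputable def avg (Q : Set ℂ) (h : ℂ → ℝ) : ℝ≥0∞ :=
  (volume Q)⁻¹ * ∫⁻ z in Q, ENNReal.ofReal (h z)

/-- `w` is a Muckenhoupt `A_p` weight on the plane. -/
def IsAp (p : ℝ) (w : ℂ → ℝ) : Prop :=
  LocallyIntegrable w volume ∧ (∀ᵐ z : ℂ, 0 < w z) ∧
    ∃ C : ℝ≥0∞, C < ⊤ ∧ ∀ c u : ℂ, u ≠ 0 →
      avg (square c u) w * avg (square c u) (fun z => w z ^ (-1 / (p - 1))) ^ (p - 1) ≤ C

/-- The measure `w dA`. -/
noncomputable def wm (w : ℂ → ℝ) : Measure ℂ :=
  volume.withDensity fun z => ENNReal.ofReal (w z)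

/-- The truncated Ahlfors-Beurling integral. -/
noncomputable def trunc (f : ℂ → ℂ) (z : ℂ) (ε : ℝ) : ℂ :=
  -(1 / (Real.pi : ℂ)) * ∫ ζ in {ζ : ℂ | ε < ‖z - ζ‖}, f ζ / (z - ζ) ^ 2

/-- The principal value integral defining `Tf(z)` exists and equals `v`: every truncated integral
converges absolutely and the truncated integrals tend to `v`. -/
def PVAt (f : ℂ → ℂ) (z v : ℂ) : Prop :=
  (∀ ε : ℝ, 0 < ε → IntegrableOn (fun ζ => f ζ / (z - ζ) ^ 2) {ζ : ℂ | ε < ‖z - ζ‖} volume) ∧
    Tendsto (trunc f z) (𝓝[>] 0) (𝓝 v)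

/-- The space `L^p(w)` of complex-valued functions. -/
abbrev LpW (p : ℝ≥0∞) (w : ℂ → ℝ) : Type := Lp ℂ p (wm w)

/-- `S` is a bounded complex-linear operator on the normed space `X`. -/
def IsBoundedOp {X : Type*} [NormedAddCommGroup X] [NormedSpace ℂ X] (S : X → X) : Prop :=
  IsBoundedLinearMap ℂ S

/-- `S` is a bounded operator on `L^p(w)` given on smooth compactly supported functions by the
Ahlfors-Beurling principal value integral. -/
def IsBeurlingOp (p : ℝ≥0∞) [Fact (1 ≤ p)] (w : ℂ → ℝ) (S : LpW p w → LpW p w) : Prop :=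
  IsBoundedOp S ∧
    ∀ φ : ℂ → ℂ, ContDiff ℝ ((⊤ : ℕ∞) : WithTop ℕ∞) φ → HasCompactSupport φ →
      ∀ hφ : MemLp φ p (wm w), ∀ᵐ z ∂(wm w), PVAt φ z (S (hφ.toLp φ) z)

/-- The point spectrum: `S - lam` is not injective. -/
def pointSpectrum {X : Type*} [NormedAddCommGroup X] [NormedSpace ℂ X] (S : X → X) : Set ℂ :=
  {lam : ℂ | ¬ Function.Injective fun x => S x - lam • x}

/-- The residual spectrum: `S - lam` is injective with non-dense range. -/
def residualSpectrum {X : Type*} [NormedAddCommGroup X] [NormedSpace ℂ X] (S : X → X) : Set ℂ :=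
  {lam : ℂ | (Function.Injective fun x => S x - lam • x) ∧ ¬ DenseRange fun x => S x - lam • x}

/-- The spectrum of `S` is continuous: point and residual spectra are empty. -/
def HasContinuousSpectrum {X : Type*} [NormedAddCommGroup X] [NormedSpace ℂ X] (S : X → X) : Prop :=
  pointSpectrum S = ∅ ∧ residualSpectrum S = ∅

/-- The power weight `|z|^(-3/2)`. -/
noncomputable def w0 (z : ℂ) : ℝ := ‖z‖ ^ (-(3 / 2 : ℝ))

end Pool.Agent.H616Z.Beurling
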