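import Pool.Agent.H616Z.Beurling.Defs

set_option autoImplicit false

namespace Pool.Agent.H616Z.Beurling

open MeasureTheory Filter Topology Set Metric
open scoped ENNReal Pointwise

lemma w0_nonneg (z : ℂ) : 0 ≤ w0 z := Real.rpow_nonneg (norm_nonneg _) _

lemma measurable_w0 : Measurable w0 := by
  unfold w0
  fun_prop

lemma locallyIntegrable_w0 : LocallyIntegrable w0 volume := by
  refine locallyIntegrable_of_norm_le_rpow (C := 1) (α := 3 / 2) (by simp) (by simp; norm_num)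
    (Eventually.of_forall fun z => ?_) measurable_w0.aestronglyMeasurable
  rw [Real.norm_of_nonneg (w0_nonneg z), one_mul]
  exact le_rfl

lemma ae_ne_zero : ∀ᵐ z : ℂ, z ≠ 0 := by
  have : (volume : Measure ℂ) {0} = 0 := measure_singleton _
  exact compl_mem_ae_iff.2 this

lemma ae_w0_pos : ∀ᵐ z : ℂ, 0 < w0 z := by
  filter_upwards [ae_ne_zero] with z hz
  exact Real.rpow_pos_of_pos (norm_pos_iff.2 hz) _

lemma integrableOn_w0_ball (R : ℝ) : IntegrableOn w0 (ball 0 R) volume :=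
  (locallyIntegrable_w0.integrableOn_isCompact (isCompact_closedBall 0 R)).mono_set
    ball_subset_closedBall

lemma integral_w0_ball {R : ℝ} (hR : 0 < R) :
    ∫ z in ball (0 : ℂ) R, w0 z = R ^ (1 / 2 : ℝ) * ∫ z in ball (0 : ℂ) 1, w0 z := by
  have h := Measure.setIntegral_comp_smul_of_pos (volume : Measure ℂ) w0 (ball (0 : ℂ) 1) hR
  rw [smul_unitBall_of_pos hR] at h
  have h2 : ∀ z : ℂ, w0 (R • z) = R ^ (-(3 / 2 : ℝ)) * w0 z := by
    intro z
    unfold w0
    rw [norm_smul, Real.norm_of_nonneg hR.le, Real.mul_rpow hR.le (norm_nonneg _)]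
  simp only [h2] at h
  rw [integral_const_mul, Complex.finrank_real_complex, smul_eq_mul] at h
  have h3 : R ^ (1 / 2 : ℝ) = R ^ 2 * R ^ (-(3 / 2 : ℝ)) := by
    rw [← Real.rpow_natCast R 2, ← Real.rpow_add hR]
    norm_num
  rw [h3, mul_assoc, h]
  field_simp

lemma norm_sub_le_of_mem {c u z : ℂ} (hz : z ∈ square c u) : ‖z - c‖ ≤ 2 * ‖u‖ := by
  obtain ⟨ζ, ⟨h1, h2⟩, rfl⟩ := hz
  simp only [add_sub_cancel_left, norm_mul]
  have h3 : ‖ζ‖ ≤ 2 := by
    have := Complex.norm_le_abs_re_add_abs_im ζ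
    rw [abs_of_nonneg h1.1, abs_of_nonneg h2.1] at this
    linarith [h1.2, h2.2]
  nlinarith [norm_nonneg u]

lemma ball_subset_square (c : ℂ) {u : ℂ} (hu : u ≠ 0) :
    ball (c + u * ((1 + Complex.I) / 2)) (‖u‖ / 2) ⊆ square c u := by
  intro z hz
  refine ⟨(z - c) / u, ?_, by simp only; field_simp; ring⟩
  have h1 : ‖(z - c) / u - (1 + Complex.I) / 2‖ < 1 / 2 := by
    rw [mem_ball, dist_eq_norm] at hz
    have h2 : (z - c) / u - (1 + Complex.I) / 2 = (z - (c + u * ((1 + Complex.I) / 2))) / u := by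
      field_simp
      ring
    rw [h2, norm_div, div_lt_iff₀ (norm_pos_iff.2 hu)]
    linarith
  have h3 := (Complex.abs_re_le_norm _).trans_lt h1
  have h4 := (Complex.abs_im_le_norm _).trans_lt h1
  rw [abs_lt] at h3 h4
  have h5 : ((1 + Complex.I) / 2 : ℂ).re = 1 / 2 := by simp
  have h6 : ((1 + Complex.I) / 2 : ℂ).im = 1 / 2 := by simp
  rw [Complex.sub_re, h5] at h3
  rw [Complex.sub_im, h6] at h4
  exact ⟨⟨by linarith [h3.1], by linarith [h3.2]⟩, ⟨by linarith [h4.1], by linarith [h4.2]⟩⟩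

lemma isCompact_square (c u : ℂ) : IsCompact (square c u) := by
  refine IsCompact.image ?_ (by fun_prop)
  exact (isCompact_Icc.reProdIm isCompact_Icc)

lemma avg_le_of_le {Q : Set ℂ} (hQ : MeasurableSet Q) {h : ℂ → ℝ} {M : ℝ}
    (hM : ∀ z ∈ Q, h z ≤ M) : avg Q h ≤ ENNReal.ofReal M := by
  unfold avg
  have h1 : ∫⁻ z in Q, ENNReal.ofReal (h z) ≤ ENNReal.ofReal M * volume Q := by
    rw [← setLIntegral_const]
    exact setLIntegral_mono' hQ fun z hz => ENNReal.ofReal_le_ofReal (hM z hz)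
  calc (volume Q)⁻¹ * ∫⁻ z in Q, ENNReal.ofReal (h z)
      ≤ (volume Q)⁻¹ * (ENNReal.ofReal M * volume Q) := by gcongr
    _ = ENNReal.ofReal M * ((volume Q)⁻¹ * volume Q) := by ring
    _ ≤ ENNReal.ofReal M * 1 := by gcongr; exact ENNReal.inv_mul_le_one _
    _ = ENNReal.ofReal M := mul_one _

lemma dual_avg_le {p : ℝ} (hp : 1 < p) {Q : Set ℂ} (hQ : MeasurableSet Q) {ρ : ℝ} (hρ : 0 < ρ)
    (h : ∀ z ∈ Q, ‖z‖ ≤ ρ) :
    avg Q (fun z => w0 z ^ (-1 / (p - 1))) ^ (p - 1) ≤ ENNReal.ofReal (ρ ^ (3 / 2 : ℝ)) := by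
  have hp1 : 0 < p - 1 := by linarith
  have h1 : avg Q (fun z => w0 z ^ (-1 / (p - 1))) ≤
      ENNReal.ofReal (ρ ^ ((3 / 2 : ℝ) / (p - 1))) := by
    refine avg_le_of_le hQ fun z hz => ?_
    unfold w0
    rw [← Real.rpow_mul (norm_nonneg _),
      show (-(3 / 2 : ℝ)) * (-1 / (p - 1)) = (3 / 2 : ℝ) / (p - 1) by ring]
    exact Real.rpow_le_rpow (norm_nonneg _) (h z hz) (by positivity)
  refine (ENNReal.rpow_le_rpow h1 hp1.le).trans (le_of_eq ?_)
  rw [ENNReal.ofReal_rpow_of_nonneg (by positivity) hp1.le, ← Real.rpow_mul hρ.le]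
  congr 2
  field_simp

theorem isAp_w0 {p : ℝ} (hp : 1 < p) : IsAp p w0 := by
  refine ⟨locallyIntegrable_w0, ae_w0_pos, ?_⟩
  set K : ℝ := ∫ z in ball (0 : ℂ) 1, w0 z with hK
  have hK0 : 0 ≤ K := setIntegral_nonneg measurableSet_ball fun z _ => w0_nonneg z
  refine ⟨ENNReal.ofReal (3 ^ (3 / 2 : ℝ) + 100 * K), ENNReal.ofReal_lt_top, fun c u hu => ?_⟩
  have hQ : MeasurableSet (square c u) := (isCompact_square c u).measurableSet
  have hs : 0 < ‖u‖ := norm_pos_iff.2 hu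
  have h33 : (0 : ℝ) ≤ 3 ^ (3 / 2 : ℝ) := by positivity
  by_cases hc : 4 * ‖u‖ ≤ ‖c‖
  · have hc0 : 0 < ‖c‖ := by linarith
    have h1 : avg (square c u) w0 ≤ ENNReal.ofReal ((‖c‖ / 2) ^ (-(3 / 2 : ℝ))) := by
      refine avg_le_of_le hQ fun z hz => ?_
      have h2 := norm_sub_le_of_mem hz
      have h3 : ‖c‖ ≤ ‖z‖ + ‖z - c‖ := by
        have := norm_sub_le z (z - c)
        simpa using this
      unfold w0
      exact Real.rpow_le_rpow_of_nonpos (by positivity) (by linarith) (by norm_num)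
    have h2 := dual_avg_le hp hQ (ρ := 3 * (‖c‖ / 2)) (by positivity) (fun z hz => by
      have h2 := norm_sub_le_of_mem hz
      have h3 : ‖z‖ ≤ ‖c‖ + ‖z - c‖ := by
        have := norm_add_le c (z - c)
        simpa using this
      linarith)
    refine (mul_le_mul' h1 h2).trans ?_
    rw [← ENNReal.ofReal_mul (by positivity)]
    refine ENNReal.ofReal_le_ofReal ?_
    rw [Real.mul_rpow (by norm_num) (by positivity), mul_left_comm,
      ← Real.rpow_add (by positivity)]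
    simp only [neg_add_cancel, Real.rpow_zero, mul_one]
    linarith
  · push Not at hc
    have hsub : ∀ z ∈ square c u, ‖z‖ < 6 * ‖u‖ := by
      intro z hz
      have h2 := norm_sub_le_of_mem hz
      have h3 : ‖z‖ ≤ ‖c‖ + ‖z - c‖ := by
        have := norm_add_le c (z - c)
        simpa using this
      linarith
    have h2 := dual_avg_le hp hQ (ρ := 6 * ‖u‖) (by positivity) (fun z hz => (hsub z hz).le)
    have hvol : ENNReal.ofReal (‖u‖ ^ 2 / 2) ≤ volume (square c u) := by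
      refine le_trans ?_ (measure_mono (ball_subset_square c hu))
      rw [Complex.volume_ball, ← ENNReal.ofReal_pow (by positivity), ← ENNReal.ofReal_coe_nnreal,
        ← ENNReal.ofReal_mul (by positivity)]
      refine ENNReal.ofReal_le_ofReal ?_
      have : (3 : ℝ) ≤ (NNReal.pi : ℝ) := Real.pi_gt_three.le
      nlinarith [sq_nonneg ‖u‖]
    have hint : ∫⁻ z in square c u, ENNReal.ofReal (w0 z) ≤
        ENNReal.ofReal ((6 * ‖u‖) ^ (1 / 2 : ℝ) * K) := by
      rw [hK, ← integral_w0_ball (by positivity),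
        ofReal_integral_eq_lintegral_ofReal (integrableOn_w0_ball _)
          (Eventually.of_forall w0_nonneg)]
      exact lintegral_mono_set fun z hz => mem_ball_zero_iff.2 (hsub z hz)
    have h1 : avg (square c u) w0 ≤
        ENNReal.ofReal ((‖u‖ ^ 2 / 2)⁻¹ * ((6 * ‖u‖) ^ (1 / 2 : ℝ) * K)) := by
      unfold avg
      rw [ENNReal.ofReal_mul (by positivity), ENNReal.ofReal_inv_of_pos (by positivity)]
      exact mul_le_mul' (ENNReal.inv_le_inv.2 hvol) hint
    refine (mul_le_mul' h1 h2).trans ?_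
    rw [← ENNReal.ofReal_mul (by positivity)]
    refine ENNReal.ofReal_le_ofReal ?_
    have h5 : (6 * ‖u‖) ^ (1 / 2 : ℝ) * (6 * ‖u‖) ^ (3 / 2 : ℝ) = (6 * ‖u‖) ^ 2 := by
      rw [← Real.rpow_add (by positivity), ← Real.rpow_natCast]
      norm_num
    have h6 : (‖u‖ ^ 2 / 2)⁻¹ * ((6 * ‖u‖) ^ (1 / 2 : ℝ) * K) * (6 * ‖u‖) ^ (3 / 2 : ℝ)
        = 72 * K := by
      rw [mul_assoc, mul_right_comm, h5]
      field_simp
      ring
    rw [h6]
    linarith

end Pool.Agent.H616Z.Beurling
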