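import Pool.Agent.H616Z.Beurling.PV
import Pool.Agent.H616Z.Beurling.Weight

set_option autoImplicit false

namespace Pool.Agent.H616Z.Beurling

open MeasureTheory Filter Topology Set Metric
open scoped ENNReal

/-- A bump on the line supported in `(1, 5)`. -/
noncomputable def b0 : ContDiffBump (3 : ℝ) := ⟨1, 2, by norm_num, by norm_num⟩

noncomputable def g0 (x : ℝ) : ℂ := (b0 x : ℝ)

noncomputable def f0 (z : ℂ) : ℂ := g0 z.re

noncomputable def cut (n : ℕ) : ContDiffBump (0 : ℂ) :=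
  ⟨n + 1, n + 2, by positivity, by linarith⟩

noncomputable def phi (n : ℕ) (z : ℂ) : ℂ := f0 z * (cut n z : ℝ)

lemma continuous_g0 : Continuous g0 := Complex.continuous_ofReal.comp b0.continuous

lemma integrable_g0 : Integrable g0 := b0.integrable.ofReal

lemma norm_g0 (x : ℝ) : ‖g0 x‖ = b0 x := by
  rw [g0, Complex.norm_real, Real.norm_of_nonneg b0.nonneg]

lemma norm_g0_le (x : ℝ) : ‖g0 x‖ ≤ 1 := by
  rw [norm_g0]; exact b0.le_one

lemma continuous_f0 : Continuous f0 := continuous_g0.comp Complex.continuous_re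

lemma pv_f0 (z : ℂ) : PVAt f0 z (f0 z) := pv_strip continuous_g0 integrable_g0 norm_g0_le z

lemma vol_ac : (volume : Measure ℂ) ≪ wm w0 := by
  refine withDensity_absolutelyContinuous' measurable_w0.ennreal_ofReal.aemeasurable ?_
  filter_upwards [ae_w0_pos] with z hz
  exact (ENNReal.ofReal_pos.2 hz).ne'

lemma lintegral_f0 : ∫⁻ z, ‖f0 z‖ₑ ∂(wm w0) < ⊤ := by
  unfold wm
  rw [lintegral_withDensity_eq_lintegral_mul _ measurable_w0.ennreal_ofReal
    continuous_f0.measurable.enorm]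
  have h1 : Integrable (fun y : ℝ => ((1 : ℝ) + ‖y‖ ^ 2) ^ (-(3 / 2 : ℝ) / 2)) volume :=
    integrable_rpow_neg_one_add_norm_sq (by simp; norm_num)
  have h2 := (b0.integrable (μ := volume)).mul_prod h1
  have h3 := (Complex.volume_preserving_equiv_real_prod.integrable_comp_emb
    Complex.measurableEquivRealProd.measurableEmbedding).2 h2
  refine lt_of_le_of_lt (lintegral_mono fun z => ?_) h3.2
  simp only [Pi.mul_apply, Function.comp, Complex.measurableEquivRealProd_apply]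
  rw [← ofReal_norm, ← ofReal_norm, ← ENNReal.ofReal_mul (w0_nonneg z)]
  refine ENNReal.ofReal_le_ofReal ?_
  rw [f0, norm_g0, Real.norm_of_nonneg (mul_nonneg b0.nonneg (by positivity)), mul_comm]
  by_cases hz : b0 z.re = 0
  · rw [hz]; simp
  · refine mul_le_mul_of_nonneg_left ?_ b0.nonneg
    have h4 : z.re ∈ Function.support b0 := hz
    rw [b0.support_eq, mem_ball, Real.dist_eq, abs_lt] at h4
    have h5 : (b0.rOut : ℝ) = 2 := rfl
    rw [h5] at h4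
    have h6 : 1 + ‖z.im‖ ^ 2 ≤ ‖z‖ ^ 2 := by
      rw [Complex.sq_norm, Complex.normSq_apply, Real.norm_eq_abs, sq_abs]
      nlinarith [h4.1]
    have h7 : w0 z = (‖z‖ ^ 2) ^ (-(3 / 2 : ℝ) / 2) := by
      unfold w0
      rw [← Real.rpow_natCast, ← Real.rpow_mul (norm_nonneg _)]
      norm_num
    rw [h7]
    exact Real.rpow_le_rpow_of_nonpos (by positivity) h6 (by norm_num)

lemma enorm_rpow_le {p : ℝ≥0∞} (hp : 1 ≤ p) (hp' : p ≠ ⊤) {a : ℂ} {z : ℂ} (ha : ‖a‖ ≤ ‖f0 z‖) :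
    ‖a‖ₑ ^ p.toReal ≤ ‖f0 z‖ₑ := by
  have h1 : ‖a‖ₑ ≤ ‖f0 z‖ₑ := enorm_le_iff_norm_le.2 ha
  have h2 : ‖f0 z‖ₑ ≤ 1 := by
    rw [← ofReal_norm]
    exact ENNReal.ofReal_le_one.2 (norm_g0_le _)
  have h3 : (1 : ℝ) ≤ p.toReal := by
    have := ENNReal.toReal_mono hp' hp
    simpa using this
  exact (ENNReal.rpow_le_self_of_le_one (h1.trans h2) h3).trans h1

lemma memLp_of_le {p : ℝ≥0∞} (hp : 1 ≤ p) (hp' : p ≠ ⊤) {h : ℂ → ℂ} (hh : Continuous h)
    (hle : ∀ z, ‖h z‖ ≤ ‖f0 z‖) : MemLp h p (wm w0) := by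
  refine ⟨hh.aestronglyMeasurable, ?_⟩
  rw [eLpNorm_lt_top_iff_lintegral_rpow_enorm_lt_top (zero_lt_one.trans_le hp).ne' hp']
  exact lt_of_le_of_lt (lintegral_mono fun z => enorm_rpow_le hp hp' (hle z)) lintegral_f0

lemma memLp_f0 {p : ℝ≥0∞} (hp : 1 ≤ p) (hp' : p ≠ ⊤) : MemLp f0 p (wm w0) :=
  memLp_of_le hp hp' continuous_f0 fun _ => le_rfl

lemma continuous_phi (n : ℕ) : Continuous (phi n) :=
  continuous_f0.mul (Complex.continuous_ofReal.comp (cut n).continuous)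

lemma norm_phi_le (n : ℕ) (z : ℂ) : ‖phi n z‖ ≤ ‖f0 z‖ := by
  rw [phi, norm_mul, Complex.norm_real, Real.norm_of_nonneg (cut n).nonneg]
  exact mul_le_of_le_one_right (norm_nonneg _) (cut n).le_one

lemma norm_phi_sub_le (n : ℕ) (z : ℂ) : ‖phi n z - f0 z‖ ≤ ‖f0 z‖ := by
  have h : phi n z - f0 z = f0 z * (((cut n z - 1 : ℝ)) : ℂ) := by
    rw [phi]; push_cast; ring
  rw [h, norm_mul, Complex.norm_real, Real.norm_eq_abs]
  refine mul_le_of_le_one_right (norm_nonneg _) ?_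
  rw [abs_le]
  constructor <;> linarith [(cut n).nonneg' z, (cut n).le_one (x := z)]

lemma phi_eq {n : ℕ} {z : ℂ} (hz : ‖z‖ ≤ n + 1) : phi n z = f0 z := by
  rw [phi, (cut n).one_of_mem_closedBall (mem_closedBall_zero_iff.2 hz)]
  simp

lemma eventually_phi_eq (z : ℂ) : ∀ᶠ n : ℕ in atTop, phi n z = f0 z := by
  obtain ⟨N, hN⟩ := exists_nat_ge ‖z‖
  filter_upwards [eventually_ge_atTop N] with n hn
  refine phi_eq ?_
  have : (N : ℝ) ≤ n := by exact_mod_cast hn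
  linarith

lemma memLp_phi {p : ℝ≥0∞} (hp : 1 ≤ p) (hp' : p ≠ ⊤) (n : ℕ) : MemLp (phi n) p (wm w0) :=
  memLp_of_le hp hp' (continuous_phi n) (norm_phi_le n)

lemma contDiff_phi (n : ℕ) : ContDiff ℝ ((⊤ : ℕ∞) : WithTop ℕ∞) (phi n) := by
  have h1 : ContDiff ℝ ((⊤ : ℕ∞) : WithTop ℕ∞) f0 :=
    (Complex.ofRealCLM.contDiff.comp b0.contDiff).comp Complex.reCLM.contDiff
  exact h1.mul (Complex.ofRealCLM.contDiff.comp (cut n).contDiff)

lemma hasCompactSupport_phi (n : ℕ) : HasCompactSupport (phi n) := by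
  have h : HasCompactSupport (fun z : ℂ => ((cut n z : ℝ) : ℂ)) :=
    (cut n).hasCompactSupport.comp_left (g := fun x : ℝ => (x : ℂ)) (by simp)
  exact h.mul_left

lemma tendsto_phi {p : ℝ≥0∞} [Fact (1 ≤ p)] (hp' : p ≠ ⊤) :
    Tendsto (fun n => (memLp_phi (Fact.out : 1 ≤ p) hp' n).toLp (phi n)) atTop
      (𝓝 ((memLp_f0 (Fact.out : 1 ≤ p) hp').toLp f0)) := by
  have hp : 1 ≤ p := Fact.out
  have hp0 : p ≠ 0 := (zero_lt_one.trans_le hp).ne'
  rw [Lp.tendsto_Lp_iff_tendsto_eLpNorm'']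
  simp only [eLpNorm_eq_lintegral_rpow_enorm_toReal hp0 hp']
  have hpos : 0 < p.toReal := ENNReal.toReal_pos hp0 hp'
  have h1 : Tendsto (fun n => ∫⁻ z, ‖(phi n - f0) z‖ₑ ^ p.toReal ∂(wm w0)) atTop
      (𝓝 (∫⁻ _ : ℂ, 0 ∂(wm w0))) := by
    refine tendsto_lintegral_of_dominated_convergence (fun z => ‖f0 z‖ₑ) (fun n => ?_)
      (fun n => Eventually.of_forall fun z => enorm_rpow_le hp hp' (norm_phi_sub_le n z))
      lintegral_f0.ne (Eventually.of_forall fun z => ?_)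
    · exact (((continuous_phi n).sub continuous_f0).measurable.enorm).pow_const _
    · refine tendsto_const_nhds.congr' ?_
      filter_upwards [eventually_phi_eq z] with n hn
      simp [hn, hpos]
  rw [lintegral_zero] at h1
  have h2 := (ENNReal.continuous_rpow_const (y := 1 / p.toReal)).tendsto 0
  rw [ENNReal.zero_rpow_of_pos (by positivity)] at h2
  exact h2.comp h1

lemma integrableOn_of_le {h : ℂ → ℂ} (hh : Continuous h) (hle : ∀ z, ‖h z‖ ≤ ‖f0 z‖) (z : ℂ)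
    {ε : ℝ} (hε : 0 < ε) :
    IntegrableOn (fun ζ => h ζ / (z - ζ) ^ 2) {ζ : ℂ | ε < ‖z - ζ‖} volume := by
  refine ((pv_f0 z).1 ε hε).norm.mono' ?_ (Eventually.of_forall fun ζ => ?_)
  · apply Measurable.aestronglyMeasurable
    have := hh.measurable
    fun_prop
  · rw [norm_div, norm_div]
    exact div_le_div_of_nonneg_right (hle ζ) (norm_nonneg _)

/-- The error term. -/
noncomputable def err (n : ℕ) (z : ℂ) : ℂ := trunc (fun ζ => phi n ζ - f0 ζ) z 1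

lemma tendsto_err (z : ℂ) : Tendsto (fun n => err n z) atTop (𝓝 0) := by
  have h1 : Tendsto (fun n => ∫ ζ in {ζ : ℂ | 1 < ‖z - ζ‖}, (phi n ζ - f0 ζ) / (z - ζ) ^ 2) atTop
      (𝓝 (∫ _ in {ζ : ℂ | 1 < ‖z - ζ‖}, (0 : ℂ))) := by
    refine tendsto_integral_of_dominated_convergence (fun ζ => ‖f0 ζ / (z - ζ) ^ 2‖) (fun n => ?_)
      ((pv_f0 z).1 1 one_pos).norm (fun n => Eventually.of_forall fun ζ => ?_)
      (Eventually.of_forall fun ζ => ?_)
    · exact (integrableOn_of_le ((continuous_phi n).sub continuous_f0) (norm_phi_sub_le n) z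
        one_pos).aestronglyMeasurable
    · rw [norm_div, norm_div]
      exact div_le_div_of_nonneg_right (norm_phi_sub_le n ζ) (norm_nonneg _)
    · refine tendsto_const_nhds.congr' ?_
      filter_upwards [eventually_phi_eq ζ] with n hn
      simp [hn]
  rw [integral_zero] at h1
  have h2 := h1.const_mul (-(1 / (Real.pi : ℂ)))
  rw [mul_zero] at h2
  exact h2

lemma trunc_phi {n : ℕ} {z : ℂ} (hz : ‖z‖ ≤ n) {ε : ℝ} (hε : 0 < ε) (hε1 : ε ≤ 1) :
    trunc (phi n) z ε = trunc f0 z ε + err n z := by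
  have h1 : ∫ ζ in {ζ : ℂ | ε < ‖z - ζ‖}, (phi n ζ - f0 ζ) / (z - ζ) ^ 2 =
      ∫ ζ in {ζ : ℂ | 1 < ‖z - ζ‖}, (phi n ζ - f0 ζ) / (z - ζ) ^ 2 := by
    refine setIntegral_eq_of_subset_of_forall_sdiff_eq_zero (measurableSet_out z ε)
      (fun ζ hζ => lt_of_le_of_lt hε1 hζ) fun ζ hζ => ?_
    have h2 : ‖z - ζ‖ ≤ 1 := not_lt.1 hζ.2
    have h3 : ‖ζ‖ ≤ ‖z‖ + ‖z - ζ‖ := by
      have := norm_sub_le z (z - ζ)
      simpa using this
    rw [phi_eq (by linarith)]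
    simp
  unfold err trunc
  rw [← h1, ← mul_add, ← integral_add ((pv_f0 z).1 ε hε)
    (integrableOn_of_le (h := fun ζ => phi n ζ - f0 ζ) ((continuous_phi n).sub continuous_f0)
      (norm_phi_sub_le n) z hε)]
  congr 2
  funext ζ
  ring

lemma tendsto_trunc_phi {n : ℕ} {z : ℂ} (hz : ‖z‖ ≤ n) :
    Tendsto (trunc (phi n) z) (𝓝[>] 0) (𝓝 (f0 z + err n z)) := by
  refine ((pv_f0 z).2.add_const (err n z)).congr' ?_
  filter_upwards [Ioc_mem_nhdsGT (zero_lt_one' ℝ)] with ε hε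
  exact (trunc_phi hz hε.1 hε.2).symm

lemma op_fix {p : ℝ≥0∞} [Fact (1 ≤ p)] (hp' : p ≠ ⊤) (S : LpW p w0 → LpW p w0)
    (hS : IsBeurlingOp p w0 S) :
    S ((memLp_f0 (Fact.out : 1 ≤ p) hp').toLp f0) = (memLp_f0 (Fact.out : 1 ≤ p) hp').toLp f0 := by
  have h1 := ((IsBoundedLinearMap.continuous hS.1).tendsto _).comp (tendsto_phi hp')
  obtain ⟨ns, hns, h2⟩ := (tendstoInMeasure_of_tendsto_Lp h1).exists_seq_tendsto_ae
  have h3 : ∀ᵐ z ∂(wm w0), ∀ n : ℕ,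
      PVAt (phi n) z (S ((memLp_phi (Fact.out : 1 ≤ p) hp' n).toLp (phi n)) z) :=
    ae_all_iff.2 fun n => hS.2 (phi n) (contDiff_phi n) (hasCompactSupport_phi n) _
  apply Lp.ext
  filter_upwards [h2, h3, (memLp_f0 (Fact.out : 1 ≤ p) hp').coeFn_toLp] with z hz2 hz3 hz4
  rw [hz4]
  have h5 : Tendsto (fun n => f0 z + err n z) atTop (𝓝 (f0 z)) := by
    simpa using (tendsto_err z).const_add (f0 z)
  have h6 : Tendsto (fun n => S ((memLp_phi (Fact.out : 1 ≤ p) hp' n).toLp (phi n)) z) atTop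
      (𝓝 (f0 z)) := by
    refine h5.congr' ?_
    obtain ⟨N, hN⟩ := exists_nat_ge ‖z‖
    filter_upwards [eventually_ge_atTop N] with n hn
    have : (N : ℝ) ≤ n := by exact_mod_cast hn
    exact tendsto_nhds_unique (tendsto_trunc_phi (hN.trans this)) (hz3 n).2
  exact tendsto_nhds_unique hz2 (h6.comp hns.tendsto_atTop)

lemma toLp_ne_zero {p : ℝ≥0∞} [Fact (1 ≤ p)] (hp' : p ≠ ⊤) :
    (memLp_f0 (Fact.out : 1 ≤ p) hp').toLp f0 ≠ 0 := by
  intro h
  have h1 : f0 =ᵐ[wm w0] 0 := by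
    have h2 := (memLp_f0 (Fact.out : 1 ≤ p) hp').coeFn_toLp
    rw [h] at h2
    exact h2.symm.trans (Lp.coeFn_zero _ _ _)
  have h3 : f0 =ᵐ[volume] 0 := vol_ac.ae_le h1
  have h4 : f0 = 0 := (continuous_f0.ae_eq_iff_eq volume continuous_zero).1 h3
  have h5 : f0 3 = 1 := by
    have : b0 (3 : ℝ) = 1 := b0.one_of_mem_closedBall (mem_closedBall_self b0.rIn_pos.le)
    simp [f0, g0, this]
  rw [h4] at h5
  simp at h5

lemma pv_congr {f g : ℂ → ℂ} (h : f =ᵐ[volume] g) {z v : ℂ} (hf : PVAt f z v) : PVAt g z v := by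
  have h1 : ∀ s : Set ℂ, (fun ζ => f ζ / (z - ζ) ^ 2) =ᵐ[volume.restrict s]
      (fun ζ => g ζ / (z - ζ) ^ 2) := by
    intro s
    filter_upwards [ae_restrict_of_ae h] with ζ hζ
    rw [hζ]
  refine ⟨fun ε hε => (hf.1 ε hε).congr (h1 _), ?_⟩
  have h2 : trunc g z = trunc f z := by
    funext ε
    unfold trunc
    rw [integral_congr_ae (h1 _)]
  rw [h2]
  exact hf.2

lemma one_mem_pointSpectrum {X : Type*} [NormedAddCommGroup X] [NormedSpace ℂ X]
    (S : X → X) (hS : IsBoundedOp S) {F : X} (hF : F ≠ 0) (h : S F = F) :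
    (1 : ℂ) ∈ pointSpectrum S := by
  intro hc
  apply hF
  apply hc
  have h0 : S 0 = 0 := (IsBoundedLinearMap.toIsLinearMap hS).map_zero
  simp [h, h0]

theorem main (p : ℝ≥0∞) [Fact (1 ≤ p)] (hp : 1 < p) (hp' : p ≠ ⊤) :
    IsAp p.toReal w0 ∧ ∃ F : LpW p w0, F ≠ 0 ∧ (∀ᵐ z : ℂ, PVAt F z (F z)) ∧
      ∀ S : LpW p w0 → LpW p w0, IsBeurlingOp p w0 S →
        S F = F ∧ (1 : ℂ) ∈ pointSpectrum S ∧ ¬ HasContinuousSpectrum S := by
  refine ⟨isAp_w0 ?_, (memLp_f0 (Fact.out : 1 ≤ p) hp').toLp f0, toLp_ne_zero hp', ?_,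
    fun S hS => ?_⟩
  · have := (ENNReal.toReal_lt_toReal ENNReal.one_ne_top hp').2 hp
    simpa using this
  · have h1 : ((memLp_f0 (Fact.out : 1 ≤ p) hp').toLp f0 : ℂ → ℂ) =ᵐ[volume] f0 :=
      vol_ac.ae_le (memLp_f0 (Fact.out : 1 ≤ p) hp').coeFn_toLp
    filter_upwards [h1] with z hz
    rw [hz]
    exact pv_congr h1.symm (pv_f0 z)
  · have h2 := one_mem_pointSpectrum S hS.1 (toLp_ne_zero hp') (op_fix hp' S hS)
    refine ⟨op_fix hp' S hS, h2, fun hc => ?_⟩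
    rw [hc.1] at h2
    exact h2

end Pool.Agent.H616Z.Beurling
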