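import Pool.Agent.H616Z.Beurling.Defs

set_option autoImplicit false

namespace Pool.Agent.H616Z.Beurling

open MeasureTheory Filter Topology Set
open scoped ENNReal

lemma ne_zero_aux {u : ℝ} (hu : u ≠ 0) (v : ℝ) : ((u : ℂ) + v * Complex.I) ≠ 0 := by
  intro h
  have := congrArg Complex.re h
  simp at this
  exact hu this

lemma norm_sq_aux (u v : ℝ) : ‖((u : ℂ) + v * Complex.I)‖ ^ 2 = u ^ 2 + v ^ 2 := by
  rw [Complex.sq_norm, Complex.normSq_add_mul_I]

lemma integrable_inv_sq_add {a : ℝ} (ha : a ≠ 0) :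
    Integrable (fun v : ℝ => (a ^ 2 + v ^ 2)⁻¹) := by
  have h := (integrable_inv_one_add_sq.comp_mul_left' (R := a⁻¹) (inv_ne_zero ha)).const_mul
    (a ^ 2)⁻¹
  refine h.congr (Eventually.of_forall fun v => ?_)
  simp only
  field_simp

lemma integrable_kernel {u : ℝ} (hu : u ≠ 0) :
    Integrable (fun v : ℝ => (((u : ℂ) + v * Complex.I) ^ 2)⁻¹) := by
  refine (integrable_inv_sq_add hu).mono' ?_ (Eventually.of_forall fun v => ?_)
  · apply Measurable.aestronglyMeasurable
    fun_prop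
  · rw [norm_inv, norm_pow, norm_sq_aux]

lemma hasDerivAt_prim {u : ℝ} (hu : u ≠ 0) (v : ℝ) :
    HasDerivAt (fun v : ℝ => Complex.I * ((u : ℂ) + v * Complex.I)⁻¹)
      ((((u : ℂ) + v * Complex.I) ^ 2)⁻¹) v := by
  have h1 : HasDerivAt (fun v : ℝ => (u : ℂ) + v * Complex.I) Complex.I v := by
    have := ((Complex.ofRealCLM.hasDerivAt (x := v)).mul_const Complex.I).const_add (u : ℂ)
    simpa using this
  have h2 := (h1.inv (ne_zero_aux hu v)).const_mul Complex.I
  have h3 : (((u : ℂ) + v * Complex.I) ^ 2)⁻¹ =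
      Complex.I * (-Complex.I / ((u : ℂ) + v * Complex.I) ^ 2) := by
    rw [← mul_div_assoc, mul_neg, Complex.I_mul_I, neg_neg, one_div]
  rw [h3]
  exact h2

lemma tendsto_prim (u : ℝ) (l : Filter ℝ) (hl : Tendsto (fun v : ℝ => |v|) l atTop) :
    Tendsto (fun v : ℝ => Complex.I * ((u : ℂ) + v * Complex.I)⁻¹) l (𝓝 0) := by
  have h : Tendsto (fun v : ℝ => ((u : ℂ) + v * Complex.I)⁻¹) l (𝓝 0) := by
    rw [tendsto_zero_iff_norm_tendsto_zero]
    simp only [norm_inv]
    refine Tendsto.inv_tendsto_atTop (tendsto_atTop_mono (fun v => ?_) hl)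
    have := Complex.abs_im_le_norm ((u : ℂ) + v * Complex.I)
    simpa using this
  simpa using h.const_mul Complex.I

lemma inner_integral {ε u : ℝ} (hε : 0 < ε) (hu : u ≠ 0) :
    ∫ v : ℝ, {v : ℝ | ε < ‖((u : ℂ) + v * Complex.I)‖}.indicator
        (fun v : ℝ => (((u : ℂ) + v * Complex.I) ^ 2)⁻¹) v
      = ((-2 * √(ε ^ 2 - u ^ 2) / ε ^ 2 : ℝ) : ℂ) := by
  set s : ℝ := √(ε ^ 2 - u ^ 2) with hs
  have hs0 : 0 ≤ s := Real.sqrt_nonneg _
  have hset : {v : ℝ | ε < ‖((u : ℂ) + v * Complex.I)‖} =ᵐ[volume] (Iic (-s) ∪ Ioi s : Set ℝ) := by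
    have hne : ∀ᵐ v : ℝ, v ≠ -s := by
      have : (volume : Measure ℝ) {-s} = 0 := measure_singleton _
      exact compl_mem_ae_iff.2 this
    filter_upwards [hne] with v hv
    apply propext
    change ε < ‖((u : ℂ) + v * Complex.I)‖ ↔ v ∈ (Iic (-s) ∪ Ioi s : Set ℝ)
    rw [← sq_lt_sq₀ hε.le (norm_nonneg _), norm_sq_aux]
    simp only [mem_union, mem_Iic, mem_Ioi]
    by_cases h : ε ^ 2 - u ^ 2 ≤ 0
    · have hs' : s = 0 := Real.sqrt_eq_zero'.2 h
      rw [hs'] at hv ⊢
      have hv' : v ≠ 0 := by simpa using hv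
      have : 0 < v ^ 2 := by positivity
      constructor
      · intro _
        rcases le_or_gt v 0 with h1 | h1
        · left; simpa using h1
        · right; exact h1
      · intro _; linarith
    · push Not at h
      have hss : s ^ 2 = ε ^ 2 - u ^ 2 := Real.sq_sqrt h.le
      constructor
      · intro h1
        by_contra h2
        push Not at h2
        have : v ^ 2 ≤ s ^ 2 := by nlinarith [h2.1, h2.2]
        linarith
      · rintro (h1 | h1)
        · have h3 : v < -s := lt_of_le_of_ne h1 hv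
          nlinarith
        · nlinarith
  have hmeas : MeasurableSet {v : ℝ | ε < ‖((u : ℂ) + v * Complex.I)‖} :=
    measurableSet_lt measurable_const (by fun_prop)
  rw [integral_indicator hmeas, setIntegral_congr_set hset,
    setIntegral_union (by
      rw [Set.disjoint_left]
      intro v h1 h2
      simp only [mem_Iic, mem_Ioi] at h1 h2
      linarith) measurableSet_Ioi (integrable_kernel hu).integrableOn
      (integrable_kernel hu).integrableOn,
    integral_Iic_of_hasDerivAt_of_tendsto' (fun v _ => hasDerivAt_prim hu v)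
      (integrable_kernel hu).integrableOn (tendsto_prim u _ tendsto_abs_atBot_atTop),
    integral_Ioi_of_hasDerivAt_of_tendsto' (fun v _ => hasDerivAt_prim hu v)
      (integrable_kernel hu).integrableOn (tendsto_prim u _ tendsto_abs_atTop_atTop)]
  have h1 := ne_zero_aux hu s
  have h2 := ne_zero_aux hu (-s)
  have key : Complex.I * ((u : ℂ) + ((-s : ℝ) : ℂ) * Complex.I)⁻¹ - 0 +
      (0 - Complex.I * ((u : ℂ) + s * Complex.I)⁻¹) = ((-2 * s / (u ^ 2 + s ^ 2) : ℝ) : ℂ) := by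
    have h3 : ((u : ℂ) ^ 2 + (s : ℂ) ^ 2) =
        ((u : ℂ) + ((-s : ℝ) : ℂ) * Complex.I) * ((u : ℂ) + s * Complex.I) := by
      push_cast
      linear_combination (s : ℂ) ^ 2 * Complex.I_sq
    have h4 : ((-2 * s / (u ^ 2 + s ^ 2) : ℝ) : ℂ) = -2 * (s : ℂ) / ((u : ℂ) ^ 2 + (s : ℂ) ^ 2) := by
      push_cast; ring
    rw [h4, h3]
    have h5 : ((u : ℂ) + s * Complex.I) - ((u : ℂ) + ((-s : ℝ) : ℂ) * Complex.I)
        = 2 * s * Complex.I := by
      push_cast; ring
    generalize ((u : ℂ) + ((-s : ℝ) : ℂ) * Complex.I) = a at h2 h5 ⊢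
    generalize ((u : ℂ) + s * Complex.I) = b at h1 h5 ⊢
    field_simp
    linear_combination Complex.I * h5 + (2 * s : ℂ) * Complex.I_sq
  rw [key]
  congr 1
  by_cases h : ε ^ 2 - u ^ 2 ≤ 0
  · have hs' : s = 0 := Real.sqrt_eq_zero'.2 h
    simp [hs']
  · push Not at h
    have hss : s ^ 2 = ε ^ 2 - u ^ 2 := Real.sq_sqrt h.le
    rw [hss]
    congr 1
    ring

/-- The truncated kernel against `g`, in real coordinates. -/
noncomputable def K (g : ℝ → ℂ) (x ε : ℝ) (q : ℝ × ℝ) : ℂ :=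
  g (x + q.1) * {v : ℝ | ε < ‖((q.1 : ℂ) + v * Complex.I)‖}.indicator
    (fun v : ℝ => (((q.1 : ℂ) + v * Complex.I) ^ 2)⁻¹) q.2

lemma measurable_K {g : ℝ → ℂ} (hg : Continuous g) (x ε : ℝ) : Measurable (K g x ε) := by
  have h1 : K g x ε = fun q : ℝ × ℝ => g (x + q.1) *
      {q : ℝ × ℝ | ε < ‖((q.1 : ℂ) + q.2 * Complex.I)‖}.indicator
        (fun q : ℝ × ℝ => (((q.1 : ℂ) + q.2 * Complex.I) ^ 2)⁻¹) q := by
    funext q
    simp only [K, indicator, mem_ofPred_eq]
  rw [h1]
  refine Measurable.mul (by fun_prop) (Measurable.indicator (by fun_prop) ?_)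
  exact measurableSet_lt measurable_const (by fun_prop)

lemma integrable_K {g : ℝ → ℂ} (hg : Continuous g) (hgi : Integrable g) (x : ℝ) {ε : ℝ}
    (hε : 0 < ε) : Integrable (K g x ε) (volume.prod volume) := by
  have h1 : Integrable (fun u : ℝ => ‖g (x + u)‖) := (hgi.comp_add_left x).norm
  have h2 : Integrable (fun v : ℝ => 2 * (ε ^ 2 + v ^ 2)⁻¹) :=
    (integrable_inv_sq_add hε.ne').const_mul 2
  refine (h1.mul_prod h2).mono' (measurable_K hg x ε).aestronglyMeasurable
    (Eventually.of_forall fun q => ?_)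
  simp only [K, norm_mul]
  refine mul_le_mul_of_nonneg_left ?_ (norm_nonneg _)
  by_cases h : ε < ‖((q.1 : ℂ) + q.2 * Complex.I)‖
  · rw [indicator_of_mem (by exact h), norm_inv, norm_pow, norm_sq_aux]
    have h3 : ε ^ 2 < q.1 ^ 2 + q.2 ^ 2 := by
      rw [← norm_sq_aux]
      exact (sq_lt_sq₀ hε.le (norm_nonneg _)).2 h
    have h4 : 0 < ε ^ 2 := by positivity
    have h5 : 0 ≤ q.1 ^ 2 := sq_nonneg _
    have h6 : 0 ≤ q.2 ^ 2 := sq_nonneg _
    rw [← div_eq_mul_inv, inv_eq_one_div, div_le_div_iff₀ (by linarith) (by linarith)]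
    linarith
  · rw [indicator_of_notMem (by exact h), norm_zero]
    positivity

/-- Change of variables from the plane to real coordinates centred at `z`. -/
noncomputable def chart (z : ℂ) : ℝ × ℝ ≃ᵐ ℂ :=
  Complex.measurableEquivRealProd.symm.trans (MeasurableEquiv.addLeft z)

lemma chart_apply (z : ℂ) (q : ℝ × ℝ) : chart z q = z + (q.1 + q.2 * Complex.I) := by
  simp only [chart, MeasurableEquiv.trans_apply, MeasurableEquiv.coe_addLeft,
    Complex.measurableEquivRealProd_symm_apply]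
  congr 1
  apply Complex.ext <;> simp

lemma measurePreserving_chart (z : ℂ) :
    MeasurePreserving (chart z) (volume.prod volume) volume :=
  (measurePreserving_add_left volume z).comp
    (Complex.volume_preserving_equiv_real_prod.symm Complex.measurableEquivRealProd)

lemma indicator_chart (g : ℝ → ℂ) (z : ℂ) (ε : ℝ) (q : ℝ × ℝ) :
    {ζ : ℂ | ε < ‖z - ζ‖}.indicator (fun ζ => g ζ.re / (z - ζ) ^ 2) (chart z q)
      = K g z.re ε q := by
  have h1 : z - chart z q = -((q.1 : ℂ) + q.2 * Complex.I) := by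
    rw [chart_apply]; ring
  have h2 : (chart z q).re = z.re + q.1 := by
    rw [chart_apply]; simp
  simp only [K, indicator, mem_ofPred_eq, h1, h2, norm_neg, neg_sq]
  split_ifs
  · rw [div_eq_mul_inv]
  · simp

lemma measurableSet_out (z : ℂ) (ε : ℝ) : MeasurableSet {ζ : ℂ | ε < ‖z - ζ‖} :=
  measurableSet_lt measurable_const (by fun_prop)

lemma integrableOn_out {g : ℝ → ℂ} (hg : Continuous g) (hgi : Integrable g) (z : ℂ) {ε : ℝ}
    (hε : 0 < ε) :
    IntegrableOn (fun ζ : ℂ => g ζ.re / (z - ζ) ^ 2) {ζ : ℂ | ε < ‖z - ζ‖} volume := by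
  rw [← integrable_indicator_iff (measurableSet_out z ε),
    ← (measurePreserving_chart z).integrable_comp_emb (chart z).measurableEmbedding]
  refine (integrable_K hg hgi z.re hε).congr (Eventually.of_forall fun q => ?_)
  exact (indicator_chart g z ε q).symm

lemma trunc_eq {g : ℝ → ℂ} (hg : Continuous g) (hgi : Integrable g) (z : ℂ) {ε : ℝ}
    (hε : 0 < ε) :
    trunc (fun ζ => g ζ.re) z ε =
      (2 / Real.pi : ℂ) * ∫ t : ℝ, g (z.re + ε * t) * ((√(1 - t ^ 2) : ℝ) : ℂ) := by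
  unfold trunc
  rw [← integral_indicator (measurableSet_out z ε),
    ← (measurePreserving_chart z).integral_comp (chart z).measurableEmbedding]
  simp only [indicator_chart]
  rw [integral_prod _ (integrable_K hg hgi z.re hε)]
  have hne : ∀ᵐ u : ℝ, u ≠ 0 := by
    have : (volume : Measure ℝ) {0} = 0 := measure_singleton _
    exact compl_mem_ae_iff.2 this
  have h1 : ∫ u : ℝ, ∫ v : ℝ, K g z.re ε (u, v) =
      ∫ u : ℝ, g (z.re + u) * ((-2 * √(ε ^ 2 - u ^ 2) / ε ^ 2 : ℝ) : ℂ) := by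
    refine integral_congr_ae ?_
    filter_upwards [hne] with u hu
    simp only [K]
    rw [integral_const_mul, inner_integral hε hu]
  rw [h1]
  have h2 := Measure.integral_comp_mul_left
    (fun u : ℝ => g (z.re + u) * ((-2 * √(ε ^ 2 - u ^ 2) / ε ^ 2 : ℝ) : ℂ)) ε
  have h3 : ∀ t : ℝ, g (z.re + ε * t) * ((-2 * √(ε ^ 2 - (ε * t) ^ 2) / ε ^ 2 : ℝ) : ℂ) =
      (-2 / ε : ℂ) * (g (z.re + ε * t) * ((√(1 - t ^ 2) : ℝ) : ℂ)) := by
    intro t
    have h4 : √(ε ^ 2 - (ε * t) ^ 2) = ε * √(1 - t ^ 2) := by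
      rw [show ε ^ 2 - (ε * t) ^ 2 = ε ^ 2 * (1 - t ^ 2) by ring, Real.sqrt_mul (sq_nonneg ε),
        Real.sqrt_sq hε.le]
    rw [h4]
    have : (ε : ℂ) ≠ 0 := by exact_mod_cast hε.ne'
    push_cast
    field_simp
  simp only [h3] at h2
  rw [integral_const_mul, abs_of_pos (inv_pos.2 hε), Complex.real_smul] at h2
  have hεc : (ε : ℂ) ≠ 0 := by exact_mod_cast hε.ne'
  have hπ : (Real.pi : ℂ) ≠ 0 := by exact_mod_cast Real.pi_ne_zero
  have h5 : ∫ u : ℝ, g (z.re + u) * ((-2 * √(ε ^ 2 - u ^ 2) / ε ^ 2 : ℝ) : ℂ) =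
      -2 * ∫ t : ℝ, g (z.re + ε * t) * ((√(1 - t ^ 2) : ℝ) : ℂ) := by
    push_cast at h2 ⊢
    field_simp at h2 ⊢
    linear_combination -h2
  rw [h5]
  field_simp

lemma integral_semicircle : ∫ t : ℝ, √(1 - t ^ 2) = Real.pi / 2 := by
  rw [← integral_sqrt_one_sub_sq, intervalIntegral.integral_of_le (by norm_num)]
  symm
  refine setIntegral_eq_integral_of_forall_compl_eq_zero fun t ht => ?_
  apply Real.sqrt_eq_zero'.2
  simp only [mem_Ioc, not_and_or, not_lt, not_le] at ht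
  rcases ht with h | h <;> nlinarith

lemma integrable_semicircle : Integrable (fun t : ℝ => √(1 - t ^ 2)) := by
  refine Continuous.integrable_of_hasCompactSupport (by fun_prop) ?_
  refine HasCompactSupport.intro (isCompact_Icc (a := -1) (b := 1)) fun t ht => ?_
  apply Real.sqrt_eq_zero'.2
  simp only [mem_Icc, not_and_or, not_le] at ht
  rcases ht with h | h <;> nlinarith

lemma pv_strip {g : ℝ → ℂ} (hg : Continuous g) (hgi : Integrable g) (hb : ∀ x, ‖g x‖ ≤ 1)
    (z : ℂ) : PVAt (fun ζ => g ζ.re) z (g z.re) := by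
  refine ⟨fun ε hε => integrableOn_out hg hgi z hε, ?_⟩
  have h1 : Tendsto (fun ε : ℝ => ∫ t : ℝ, g (z.re + ε * t) * ((√(1 - t ^ 2) : ℝ) : ℂ)) (𝓝 0)
      (𝓝 (∫ t : ℝ, g (z.re + 0 * t) * ((√(1 - t ^ 2) : ℝ) : ℂ))) := by
    refine tendsto_integral_filter_of_dominated_convergence (fun t => √(1 - t ^ 2)) ?_ ?_
      integrable_semicircle ?_
    · refine Eventually.of_forall fun ε => Continuous.aestronglyMeasurable ?_
      fun_prop
    · refine Eventually.of_forall fun ε => Eventually.of_forall fun t => ?_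
      rw [norm_mul, Complex.norm_real, Real.norm_of_nonneg (Real.sqrt_nonneg _)]
      exact mul_le_of_le_one_left (Real.sqrt_nonneg _) (hb _)
    · refine Eventually.of_forall fun t => ?_
      have : Continuous fun ε : ℝ => g (z.re + ε * t) * ((√(1 - t ^ 2) : ℝ) : ℂ) := by fun_prop
      exact this.tendsto 0
  have h2 : (∫ t : ℝ, g (z.re + 0 * t) * ((√(1 - t ^ 2) : ℝ) : ℂ)) = g z.re * (Real.pi / 2) := by
    simp only [zero_mul, add_zero]
    rw [integral_const_mul, integral_complex_ofReal, integral_semicircle]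
    push_cast
    ring
  rw [h2] at h1
  have h3 := (h1.const_mul (2 / Real.pi : ℂ)).mono_left (nhdsWithin_le_nhds (s := Ioi 0))
  have hπ : (Real.pi : ℂ) ≠ 0 := by exact_mod_cast Real.pi_ne_zero
  have h4 : (2 / Real.pi : ℂ) * (g z.re * (Real.pi / 2)) = g z.re := by field_simp
  rw [h4] at h3
  refine h3.congr' ?_
  filter_upwards [self_mem_nhdsWithin] with ε hε
  exact (trunc_eq hg hgi z hε).symm

end Pool.Agent.H616Z.Beurling
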